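import Mathlib
import Pool.Agent.V1135.Semi

/-!
# A locally finite, locally integrable group that is not integrable

Let `V = C_3 × C_9^(ℕ)` and let `G` be the generalised dihedral group of `V`. The group `G` is not
integrable: the section `V[3] / 3 V` has order three and would be acted on through an abelian group,
while it is inverted by `G`. Every finite subset of `G` lies in a subgroup isomorphic to the
generalised dihedral group of `X × X`, which is the derived subgroup of `(X × X) ⋊ D_8`.
-/

set_option autoImplicit false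
set_option linter.unusedSectionVars false

namespace Pool.Agent.Results.MP_2bd3fb_al.NotIntegrable

open Pool.Agent.V1135
open scoped commutatorElement

/-- The dihedral group of order eight acting on `X × X` by signed permutations. -/
def d8fun {X : Type*} [AddCommGroup X] : DihedralGroup 4 → X × X → X × X
  | .r 0, p => p
  | .r 1, p => (-p.2, p.1)
  | .r 2, p => (-p.1, -p.2)
  | .r 3, p => (p.2, -p.1)
  | .sr 0, p => (p.1, -p.2)
  | .sr 1, p => (-p.2, -p.1)
  | .sr 2, p => (-p.1, p.2)
  | .sr 3, p => (p.2, p.1)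

theorem d8_cases (g : DihedralGroup 4) : g = .r 0 ∨ g = .r 1 ∨ g = .r 2 ∨ g = .r 3 ∨
    g = .sr 0 ∨ g = .sr 1 ∨ g = .sr 2 ∨ g = .sr 3 := by
  revert g; decide

/-- Synonym for `X × X` carrying the action of the dihedral group. -/
def Sq (X : Type*) := X × X

instance {X : Type*} [AddCommGroup X] : AddCommGroup (Sq X) := inferInstanceAs (AddCommGroup (X × X))
instance {X : Type*} [Finite X] : Finite (Sq X) := inferInstanceAs (Finite (X × X))

theorem d8fun_mul {X : Type*} [AddCommGroup X] (g h : DihedralGroup 4) (p : X × X) :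
    d8fun (g * h) p = d8fun g (d8fun h p) := by
  obtain ⟨x, y⟩ := p
  rcases d8_cases g with rfl | rfl | rfl | rfl | rfl | rfl | rfl | rfl <;>
  rcases d8_cases h with rfl | rfl | rfl | rfl | rfl | rfl | rfl | rfl <;>
  refine Prod.ext ?_ ?_ <;> first | rfl | exact (neg_neg _).symm

theorem d8fun_add {X : Type*} [AddCommGroup X] (g : DihedralGroup 4) (p q : X × X) :
    d8fun g (p + q) = d8fun g p + d8fun g q := by
  rcases d8_cases g with rfl | rfl | rfl | rfl | rfl | rfl | rfl | rfl <;>
  · ext <;> simp [d8fun, add_comm]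

theorem d8fun_zero {X : Type*} [AddCommGroup X] (g : DihedralGroup 4) :
    d8fun g (0 : X × X) = 0 := by
  rcases d8_cases g with rfl | rfl | rfl | rfl | rfl | rfl | rfl | rfl <;>
  · ext <;> simp [d8fun]

instance {X : Type*} [AddCommGroup X] : DistribMulAction (DihedralGroup 4) (Sq X) where
  smul g p := d8fun g p
  one_smul p := rfl
  mul_smul g h p := d8fun_mul g h p
  smul_zero g := d8fun_zero g
  smul_add g _ _ := d8fun_add g _ _

theorem d8_smul_def {X : Type*} [AddCommGroup X] (g : DihedralGroup 4) (p : Sq X) :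
    g • p = d8fun g p := rfl

/-- The embedding of the signs into the dihedral group. -/
def iota : ℤˣ →* DihedralGroup 4 where
  toFun s := if s = 1 then .r 0 else .r 2
  map_one' := by decide
  map_mul' := by decide

theorem iota_smul {X : Type*} [AddCommGroup X] (s : ℤˣ) (p : X × X) :
    d8fun (iota s) p = s • p := by
  rcases Int.units_eq_one_or s with rfl | rfl
  · rw [one_smul]; rfl
  · show (-p.1, -p.2) = ((-1 : ℤˣ) : ℤ) • p
    ext <;> simp

/-- The embedding of the generalised dihedral group of `X × X`. -/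
def jmap (X : Type*) [AddCommGroup X] : Semi ℤˣ (X × X) →* Semi (DihedralGroup 4) (Sq X) where
  toFun a := ⟨a.v, iota a.q⟩
  map_one' := by
    refine Semi.ext rfl ?_
    simp
  map_mul' a b := by
    refine Semi.ext ?_ ?_
    · show a.v + a.q • b.v = a.v + d8fun (iota a.q) b.v
      rw [iota_smul]
    · simp

theorem jmap_injective (X : Type*) [AddCommGroup X] : Function.Injective (jmap X) := by
  intro a b h
  have h1 : (jmap X a).v = (jmap X b).v := by rw [h]
  have h2 : (jmap X a).q = (jmap X b).q := by rw [h]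
  have h3 : ∀ s t : ℤˣ, iota s = iota t → s = t := by decide
  exact Semi.ext h1 (h3 _ _ h2)

theorem inl_double {X : Type*} [AddCommGroup X] (u : X × X) :
    (Semi.inl (u + u : X × X) : Semi (DihedralGroup 4) (Sq X)) =
      ⁅(Semi.inl (u : X × X) : Semi (DihedralGroup 4) (Sq X)), Semi.inr (.r 2)⁆ := by
  obtain ⟨x, y⟩ := u
  rw [commutatorElement_def]
  refine Semi.ext (Prod.ext ?_ ?_) ?_
  · show x + x = ((x + 0) + -(-x)) + -(-(-0))
    simp
  · show y + y = ((y + 0) + -(-y)) + -(-(-0))
    simp
  · show (DihedralGroup.r 0 : DihedralGroup 4) = 1 * .r 2 * 1⁻¹ * (.r 2)⁻¹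
    decide

theorem jmap_range (X : Type*) [AddCommGroup X] (hX : ∀ x : X, (9 : ℕ) • x = 0) :
    (jmap X).range = commutator (Semi (DihedralGroup 4) (Sq X)) := by
  apply le_antisymm
  · rintro _ ⟨a, rfl⟩
    have hdec : jmap X a = (Semi.inl (a.v : Sq X) : Semi (DihedralGroup 4) (Sq X)) *
        Semi.inr (iota a.q) := by
      refine Semi.ext ?_ ?_
      · show a.v = a.v + (0 : X × X)
        rw [add_zero]
      · show iota a.q = 1 * iota a.q
        rw [one_mul]
    rw [hdec]
    refine Subgroup.mul_mem _ ?_ ?_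
    · -- translations
      have h9 : a.v = (5 : ℕ) • a.v + (5 : ℕ) • a.v := by
        rw [← add_smul]
        have : (5 + 5 : ℕ) • a.v = (9 : ℕ) • a.v + a.v := by
          rw [show (5 + 5 : ℕ) = 9 + 1 from rfl, add_smul, one_smul]
        rw [this]
        have h0 : (9 : ℕ) • a.v = 0 := by
          ext <;> simp [hX]
        rw [h0, zero_add]
      rw [h9, inl_double]
      exact Subgroup.commutator_mem_commutator (Subgroup.mem_top _) (Subgroup.mem_top _)
    · have h3 : ∀ s : ℤˣ, ∃ x y : DihedralGroup 4, iota s = ⁅x, y⁆ := by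
        intro s
        rcases Int.units_eq_one_or s with rfl | rfl
        · exact ⟨1, 1, by decide⟩
        · exact ⟨.r 1, .sr 0, by decide⟩
      obtain ⟨x, y, hxy⟩ := h3 a.q
      rw [hxy, map_commutatorElement]
      exact Subgroup.commutator_mem_commutator (Subgroup.mem_top _) (Subgroup.mem_top _)
  · rw [commutator_def, Subgroup.commutator_le]
    intro g _ h _
    have h3 : ∀ x y : DihedralGroup 4, ∃ s : ℤˣ, iota s = ⁅x, y⁆ := by decide
    obtain ⟨s, hs⟩ := h3 g.q h.q
    refine ⟨⟨(⁅g, h⁆).v, s⟩, ?_⟩
    refine Semi.ext rfl ?_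
    show iota s = Semi.proj ⁅g, h⁆
    rw [hs, map_commutatorElement]
    rfl

/-- `Dih (X × X)` is the derived subgroup of `(X × X) ⋊ D_8`. -/
theorem dih_integrable (X : Type) [AddCommGroup X] [Finite X] (hX : ∀ x : X, (9 : ℕ) • x = 0) :
    ∃ (H : Type) (_ : Group H), Finite H ∧ Nonempty (commutator H ≃* Semi ℤˣ (X × X)) := by
  refine ⟨Semi (DihedralGroup 4) (Sq X), inferInstance, inferInstance, ⟨?_⟩⟩
  exact (MulEquiv.subgroupCongr (jmap_range X hX).symm).trans
    (MonoidHom.ofInjective (jmap_injective X)).symm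

/-- `V = C_3 × C_9^(ℕ)`. -/
abbrev V := ZMod 3 × (ℕ →₀ ZMod 9)

/-- The generalised dihedral group of `V`. -/
abbrev G := Semi ℤˣ V

/-- Finite pieces. -/
abbrev Xn (n : ℕ) := ZMod 3 × (Fin n → ZMod 9)

theorem Xn_nine (n : ℕ) (x : Xn n) : (9 : ℕ) • x = 0 := by
  have h3 : ∀ a : ZMod 3, (9 : ℕ) • a = 0 := by decide
  have h9 : ∀ a : ZMod 9, (9 : ℕ) • a = 0 := by decide
  ext
  · simp only [Prod.smul_fst, Prod.fst_zero, h3]
  · simp only [Prod.smul_snd, Pi.smul_apply, Prod.snd_zero, Pi.zero_apply, h9]

/-- Multiplication by three from `C_3` to `C_9`. -/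
def three : ZMod 3 →+ ZMod 9 where
  toFun b := 3 * (b.val : ZMod 9)
  map_zero' := by decide
  map_add' := by decide

theorem three_injective : Function.Injective three := by
  have : ∀ a b : ZMod 3, three a = three b → a = b := by decide
  exact fun a b => this a b

/-- The second component of the embedding. -/
def thetaFun (n : ℕ) (p : Xn n × Xn n) (m : ℕ) : ZMod 9 :=
  if h : m < n then p.1.2 ⟨m, h⟩ else
    if h' : m - n < n then p.2.2 ⟨m - n, h'⟩ else
      if m = 2 * n then three p.2.1 else 0

/-- The embedding of `Xn × Xn` into `V`. -/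
noncomputable def theta (n : ℕ) : Xn n × Xn n →+ V where
  toFun p := (p.1.1, Finsupp.onFinset (Finset.range (2 * n + 1)) (thetaFun n p) (by
    intro m hm
    rw [Finset.mem_range]
    by_contra hlt
    apply hm
    unfold thetaFun
    rw [dif_neg (by omega), dif_neg (by omega), if_neg (by omega)]))
  map_zero' := by
    refine Prod.ext rfl ?_
    ext m
    simp [thetaFun]
  map_add' p q := by
    refine Prod.ext rfl ?_
    ext m
    simp only [Finsupp.onFinset_apply, Prod.snd_add, Finsupp.add_apply]
    unfold thetaFun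
    split_ifs <;> simp

theorem theta_injective (n : ℕ) : Function.Injective (theta n) := by
  intro p q h
  have h1 : p.1.1 = q.1.1 := by
    have : (theta n p).1 = (theta n q).1 := by rw [h]
    exact this
  have h2 : ∀ m, thetaFun n p m = thetaFun n q m := by
    intro m
    have : (theta n p).2 = (theta n q).2 := by rw [h]
    exact DFunLike.congr_fun this m
  refine Prod.ext (Prod.ext h1 ?_) (Prod.ext ?_ ?_)
  · ext ⟨m, hm⟩
    have := h2 m
    unfold thetaFun at this
    rwa [dif_pos hm, dif_pos hm] at this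
  · have := h2 (2 * n)
    unfold thetaFun at this
    rw [dif_neg (by omega), dif_neg (by omega), if_pos rfl, dif_neg (by omega), dif_neg (by omega),
      if_pos rfl] at this
    exact three_injective this
  · ext ⟨m, hm⟩
    have := h2 (m + n)
    unfold thetaFun at this
    rw [dif_neg (by omega), dif_pos (by omega : m + n - n < n), dif_neg (by omega),
      dif_pos (by omega : m + n - n < n)] at this
    simpa using this

theorem mem_theta_range (n : ℕ) (v : V) (hv : ∀ m ∈ v.2.support, m < n) :
    ∃ p, theta n p = v := by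
  refine ⟨((v.1, fun i => v.2 i), (0, 0)), ?_⟩
  refine Prod.ext rfl ?_
  ext m
  show thetaFun n _ m = v.2 m
  unfold thetaFun
  split_ifs with h1 h2 h3
  · rfl
  · by_contra hne
    have := hv m (Finsupp.mem_support_iff.2 (fun h0 => hne (by simp [h0])))
    omega
  · by_contra hne
    have := hv m (Finsupp.mem_support_iff.2 (fun h0 => hne (by simp [h0])))
    omega
  · by_contra hne
    have := hv m (Finsupp.mem_support_iff.2 (fun h0 => hne (by simp [h0])))
    omega

/-- The embedding of the generalised dihedral groups. -/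
noncomputable def Theta (n : ℕ) : Semi ℤˣ (Xn n × Xn n) →* G :=
  Semi.mapV (theta n) (by
    intro q v
    rcases Int.units_eq_one_or q with rfl | rfl
    · simp
    · have h : ∀ {A : Type} [AddCommGroup A] (a : A), (-1 : ℤˣ) • a = -a := by
        intro A _ a
        rw [Units.smul_def]; simp
      rw [h, h, map_neg])

theorem Theta_injective (n : ℕ) : Function.Injective (Theta n) := by
  intro a b h
  have h1 : (Theta n a).v = (Theta n b).v := by rw [h]
  have h2 : (Theta n a).q = (Theta n b).q := by rw [h]
  exact Semi.ext (theta_injective n h1) h2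

/-- Every finite subset lies in a finite integrable subgroup. -/
theorem exists_integrable (S : Set G) (hS : S.Finite) :
    ∃ K : Subgroup G, S ⊆ K ∧ Finite K ∧
      ∃ (H : Type) (_ : Group H), Finite H ∧ Nonempty (commutator H ≃* K) := by
  classical
  obtain ⟨n, hn⟩ : ∃ n : ℕ, ∀ g ∈ S, ∀ m ∈ g.v.2.support, m < n := by
    refine ⟨(hS.toFinset.sup fun g => g.v.2.support.sup fun m => m + 1), ?_⟩
    intro g hg m hm
    have h1 : m + 1 ≤ g.v.2.support.sup fun m => m + 1 :=
      Finset.le_sup (f := fun m => m + 1) hm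
    have h2 : (g.v.2.support.sup fun m => m + 1) ≤
        (hS.toFinset.sup fun g => g.v.2.support.sup fun m => m + 1) :=
      Finset.le_sup (f := fun g : G => g.v.2.support.sup fun m => m + 1) (by simpa using hg)
    omega
  have e : Semi ℤˣ (Xn n × Xn n) ≃* (Theta n).range := MonoidHom.ofInjective (Theta_injective n)
  refine ⟨(Theta n).range, ?_, ?_, ?_⟩
  · intro g hg
    obtain ⟨p, hp⟩ := mem_theta_range n g.v (hn g hg)
    exact ⟨⟨p, g.q⟩, Semi.ext hp rfl⟩
  · exact Finite.of_equiv _ e.toEquiv
  · obtain ⟨H, hH, hfin, ⟨f⟩⟩ := dih_integrable (Xn n) (Xn_nine n)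
    exact ⟨H, hH, hfin, ⟨f.trans e⟩⟩

/-- The element of order three that is not a cube. -/
noncomputable def u0 : G := Semi.inl (1, 0)

theorem aut_q (α : MulAut G) (v : V) : (α (Semi.inl v)).q = 1 := by
  have h9 : (9 : ℕ) • v = 0 := by
    have h3 : ∀ a : ZMod 3, (9 : ℕ) • a = 0 := by decide
    have h9 : ∀ a : ZMod 9, (9 : ℕ) • a = 0 := by decide
    refine Prod.ext ?_ ?_
    · simp only [Prod.smul_fst, Prod.fst_zero, h3]
    · ext m
      simp only [Prod.smul_snd, Finsupp.smul_apply, Prod.snd_zero, Finsupp.zero_apply, h9]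
  have h1 : (α (Semi.inl v)) ^ 9 = 1 := by
    rw [← map_pow, ← Semi.inl_nsmul, h9]
    exact map_one α
  have h2 : (α (Semi.inl v)).q ^ 9 = 1 := by
    rw [← Semi.pow_q, h1]; rfl
  have h3 : ∀ s : ℤˣ, s ^ 9 = 1 → s = 1 := by decide
  exact h3 _ h2

theorem aut_eq (α : MulAut G) (v : V) : α (Semi.inl v) = Semi.inl (α (Semi.inl v)).v :=
  Semi.ext rfl (aut_q α v)

theorem aut_nsmul (α : MulAut G) (n : ℕ) (v : V) :
    (α (Semi.inl (n • v))).v = n • (α (Semi.inl v)).v := by
  rw [Semi.inl_nsmul, map_pow, aut_eq, ← Semi.inl_nsmul]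
  simp

theorem aut_add (α : MulAut G) (v w : V) :
    (α (Semi.inl (v + w))).v = (α (Semi.inl v)).v + (α (Semi.inl w)).v := by
  rw [Semi.inl_add, map_mul, Semi.mul_v, aut_q, one_smul]

/-- The action of automorphisms on the characteristic section `V[3] / 3 V` of order three. -/
noncomputable def chi : MulAut G →* ZMod 3 where
  toFun α := (α u0).v.1
  map_one' := rfl
  map_mul' α β := by
    have h3 : ∀ a : ZMod 3, (3 : ℕ) • a = 0 := by decide
    set b : V := (β u0).v with hb
    have hb3 : (3 : ℕ) • b = 0 := by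
      rw [hb, u0, ← aut_nsmul]
      have : ((3 : ℕ) • ((1, 0) : V)) = 0 := by
        refine Prod.ext ?_ ?_
        · simp only [Prod.smul_fst, Prod.fst_zero, h3]
        · simp
      rw [this]
      show (β 1).v = 0
      rw [map_one]; rfl
    have hdiv : ∀ a : ZMod 9, (3 : ℕ) • a = 0 → (3 : ℕ) • (((a.val / 3 : ℕ)) : ZMod 9) = a := by
      decide
    -- the second component is divisible by three
    let c : ℕ →₀ ZMod 9 := Finsupp.mapRange (fun a : ZMod 9 => (((a.val / 3 : ℕ)) : ZMod 9))
      (by decide) b.2
    have hc : (3 : ℕ) • c = b.2 := by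
      ext m
      have h0 : (3 : ℕ) • (b.2 m) = 0 := by
        have := congrArg (fun x : V => x.2 m) hb3
        simpa using this
      simpa [c] using hdiv _ h0
    have hval : ∀ a : ZMod 3, a.val • (1 : ZMod 3) = a := by decide
    have hbdec : b = b.1.val • ((1, 0) : V) + (3 : ℕ) • ((0, c) : V) := by
      refine Prod.ext ?_ ?_
      · simp [hval]
      · simp only [Prod.snd_add, Prod.smul_snd, smul_zero, zero_add, hc]
    show (α (β u0)).v.1 = (α u0).v.1 * (β u0).v.1
    rw [u0, aut_eq β, ← u0, ← hb]
    have hmul : ∀ x y : ZMod 3, x.val • y = y * x := by decide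
    rw [hbdec, aut_add, aut_nsmul, aut_nsmul, Prod.fst_add, Prod.smul_fst, Prod.smul_fst, h3,
      add_zero, hmul]
    simp [hval, u0]

theorem not_integrable.{u} (H : Type u) [Group H] : IsEmpty (commutator H ≃* G) := by
  refine ⟨fun e => ?_⟩
  let φ : H →* ZMod 3 := chi.comp ((MulAut.congr e).toMonoidHom.comp MulAut.conjNormal)
  let s : G := ⟨0, -1⟩
  have h1 : φ.toHomUnits (e.symm s : H) = 1 :=
    Abelianization.commutator_subset_ker φ.toHomUnits (e.symm s).2
  have h2 : φ (e.symm s : H) = 1 := by
    have := congrArg Units.val h1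
    simpa using this
  have h3 : φ (e.symm s : H) = -1 := by
    show (e (MulAut.conjNormal (e.symm s : H) (e.symm u0))).v.1 = -1
    have : MulAut.conjNormal (e.symm s : H) (e.symm u0) = e.symm s * e.symm u0 * (e.symm s)⁻¹ := by
      ext
      simp
    rw [this, map_mul, map_mul, map_inv, MulEquiv.apply_symm_apply, MulEquiv.apply_symm_apply]
    simp [s, u0, Units.smul_def]
  rw [h3] at h2
  exact absurd h2 (by decide)

/-- There is a locally finite group `G` in which every finite subset is contained in a (finite)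
subgroup `K` that is the derived subgroup of some (finite) group, while `G` itself is not isomorphic
to the derived subgroup of any group. -/
theorem result.{u} :
    ∃ (G : Type) (_ : Group G),
      (∀ S : Set G, S.Finite → (Subgroup.closure S : Set G).Finite) ∧
      (∀ S : Set G, S.Finite → ∃ K : Subgroup G, S ⊆ K ∧ Finite K ∧
        ∃ (H : Type) (_ : Group H), Finite H ∧ Nonempty (commutator H ≃* K)) ∧
      ∀ (H : Type u) (_ : Group H), IsEmpty (commutator H ≃* G) := by
  refine ⟨G, inferInstance, ?_, exists_integrable, fun H _ => not_integrable H⟩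
  intro S hS
  obtain ⟨K, hSK, hK, -⟩ := exists_integrable S hS
  have h1 : Subgroup.closure S ≤ K := (Subgroup.closure_le K).2 hSK
  exact Set.Finite.subset (Set.toFinite (K : Set G)) h1

end Pool.Agent.Results.MP_2bd3fb_al.NotIntegrable
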